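import Pool.Agent.H16.TO.Targets

/-!
# Modules FI, FA: finitely many conditions, several quantifiers
-/

set_option autoImplicit false

namespace Pool.Agent.H58.TW

open Pool.Agent.H69.Sp Pool.Agent.H69.Mt Pool.Agent.H16.TO

theorem fd_ex (ι : Type) [Finite ι] (P : ι → Pd) (h : ∀ i, FD (P i)) :
    FD (fun N E v => ∃ i, P i N E v) := by
  obtain ⟨n, ⟨e⟩⟩ := Finite.exists_equiv_fin ι
  have h1 : ∀ c : ℕ, FD (fun N E v => ∃ hc : c < n, P (e.symm ⟨c, hc⟩) N E v) := by
    intro c
    by_cases hc : c < n
    · refine (h (e.symm ⟨c, hc⟩)).congr fun N E v _ => ?_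
      exact ⟨fun h2 => ⟨hc, h2⟩, fun ⟨_, h2⟩ => h2⟩
    · exact FD.ff.congr fun N E v _ => ⟨fun h2 => h2.elim, fun ⟨h2, _⟩ => (hc h2).elim⟩
  refine (FD.exFin n h1).congr fun N E v _ => ?_
  constructor
  · rintro ⟨c, _, hc, h2⟩
    exact ⟨_, h2⟩
  · rintro ⟨i, h2⟩
    refine ⟨(e i).val, (e i).isLt, (e i).isLt, ?_⟩
    have h3 : e.symm ⟨(e i).val, (e i).isLt⟩ = i := e.symm_apply_apply i
    rw [h3]
    exact h2

theorem pf_fi : T_FI := by
  intro ι _ P h
  refine ⟨?_, fd_ex ι P h⟩
  refine (fd_ex ι (fun i N E v => ¬ P i N E v) (fun i => (h i).not)).not.congr fun N E v _ => ?_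
  constructor
  · intro h1 i
    by_contra h2
    exact h1 ⟨i, h2⟩
  · rintro h1 ⟨i, h2⟩
    exact h2 (h1 i)

theorem updN_zero (v : ℕ → ℕ) (b : ℕ) (f : ℕ → ℕ) : updN v b 0 f = v := by
  funext x
  unfold updN
  rw [if_neg (by omega)]

theorem updN_succ (v : ℕ → ℕ) (b k : ℕ) (f : ℕ → ℕ) :
    updN v b (k + 1) f = Function.update (updN v b k f) (b + k) (f k) := by
  funext x
  by_cases hx : x = b + k
  · subst hx
    rw [Function.update_self]
    unfold updN
    rw [if_pos (by omega)]
    congr 1
    omega
  · rw [Function.update_of_ne hx]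
    unfold updN
    by_cases h1 : b ≤ x ∧ x < b + k
    · rw [if_pos h1, if_pos (by omega)]
    · rw [if_neg h1, if_neg (by omega)]

theorem updN_congr (v : ℕ → ℕ) (b k : ℕ) (f g : ℕ → ℕ) (h : ∀ i < k, f i = g i) :
    updN v b k f = updN v b k g := by
  funext x
  unfold updN
  by_cases h1 : b ≤ x ∧ x < b + k
  · rw [if_pos h1, if_pos h1]
    exact h _ (by omega)
  · rw [if_neg h1, if_neg h1]

theorem pf_fa : T_FA := by
  intro P b k hP
  induction k generalizing P with
  | zero =>
    refine hP.congr fun N E v hv => ?_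
    constructor
    · intro h f _
      rw [updN_zero]
      exact h
    · intro h
      have h1 := h (fun _ => v 0) (fun _ => hv 0)
      rwa [updN_zero] at h1
  | succ k ih =>
    refine (ih _ (FD.all (b + k) hP)).congr fun N E v hv => ?_
    constructor
    · intro h f hf
      rw [updN_succ]
      exact h f hf (f k) (hf k)
    · intro h f hf a ha
      have h1 := h (Function.update f k a) (fun i => by
        by_cases hi : i = k
        · subst hi
          rw [Function.update_self]
          exact ha
        · rw [Function.update_of_ne hi]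
          exact hf i)
      rw [updN_succ, Function.update_self, updN_congr v b k (Function.update f k a) f
        (fun i hi => Function.update_of_ne (by omega) _ _)] at h1
      exact h1

end Pool.Agent.H58.TW
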