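import Pool.Agent.H16.TO.Targets

/-!
# Module FS: sums of variables
-/

set_option autoImplicit false

namespace Pool.Agent.H58.TW

open Pool.Agent.H69.Sp Pool.Agent.H69.Mt Pool.Agent.H16.TO

theorem map_upd (L : List ℕ) (v : ℕ → ℕ) (y a : ℕ) (h : ∀ i ∈ L, i < y) :
    L.map (Function.update v y a) = L.map v := by
  refine List.map_congr_left fun i hi => ?_
  have := h i hi
  exact Function.update_of_ne (by omega) _ _

theorem le_sum_of_mem (L : List ℕ) : ∀ i ∈ L, i ≤ L.sum := by
  intro i hi
  exact List.le_sum_of_mem hi

theorem fd_sum (L : List ℕ) : ∀ x, FD (fun _ _ v => (L.map v).sum = v x) := by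
  induction L with
  | nil =>
    intro x
    refine (FD.num 0 x).congr fun N E v _ => ?_
    simp [eq_comm]
  | cons i L ih =>
    intro x
    have hy : ∀ j ∈ L, j < x + i + L.sum + 1 := by
      intro j hj
      have := le_sum_of_mem L j hj
      omega
    have hx : x ≠ x + i + L.sum + 1 := by omega
    have hi : i ≠ x + i + L.sum + 1 := by omega
    refine (FD.ex (x + i + L.sum + 1) ((ih (x + i + L.sum + 1)).and
      (FD.add i (x + i + L.sum + 1) x))).congr fun N E v hv => ?_
    constructor
    · rintro ⟨w, _, h1, h2⟩
      rw [map_upd L v _ w hy, Function.update_self] at h1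
      rw [Function.update_self, Function.update_of_ne hx, Function.update_of_ne hi] at h2
      rw [List.map_cons, List.sum_cons]
      omega
    · intro h1
      rw [List.map_cons, List.sum_cons] at h1
      have h2 := hv x
      refine ⟨(L.map v).sum, by omega, ?_, ?_⟩
      · rw [map_upd L v _ _ hy, Function.update_self]
      · rw [Function.update_self, Function.update_of_ne hx, Function.update_of_ne hi]
        exact h1

theorem fd_sum_succ (L : List ℕ) (x : ℕ) : FD (fun _ _ v => (L.map v).sum + 1 = v x) := by
  have hy : ∀ j ∈ L, j < x + L.sum + 1 := by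
    intro j hj
    have := le_sum_of_mem L j hj
    omega
  have hx : x ≠ x + L.sum + 1 := by omega
  refine (FD.ex (x + L.sum + 1) ((fd_sum L (x + L.sum + 1)).and
    (FD.succ (x + L.sum + 1) x))).congr fun N E v hv => ?_
  constructor
  · rintro ⟨w, _, h1, h2⟩
    rw [map_upd L v _ w hy, Function.update_self] at h1
    rw [Function.update_self, Function.update_of_ne hx] at h2
    omega
  · intro h1
    have h2 := hv x
    refine ⟨(L.map v).sum, by omega, ?_, ?_⟩
    · rw [map_upd L v _ _ hy, Function.update_self]
    · rw [Function.update_self, Function.update_of_ne hx]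
      exact h1.symm

theorem fd_sum_num (L : List ℕ) : ∀ l : ℕ, FD (fun _ _ v => (L.map v).sum = l) := by
  induction L with
  | nil =>
    intro l
    refine (FD.const (0 = l)).congr fun N E v _ => ?_
    simp
  | cons i L ih =>
    intro l
    refine (FD.exFin (l + 1) (fun c => (FD.num c i).and (ih (l - c)))).congr fun N E v hv => ?_
    rw [List.map_cons, List.sum_cons]
    constructor
    · rintro ⟨c, h1, h2, h3⟩
      omega
    · intro h1
      exact ⟨v i, by omega, rfl, by omega⟩

theorem capn_eq_iff (K s : ℕ) (u : Fin (K + 1)) : capn K s = u ↔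
    (u.val < K ∧ s = u.val) ∨ (u.val = K ∧ ¬ ∃ l, l < K ∧ s = l) := by
  rw [Fin.ext_iff]
  unfold capn
  have hu := u.isLt
  constructor
  · intro h
    change min K s = u.val at h
    by_cases h1 : s < K
    · exact Or.inl ⟨by omega, by omega⟩
    · refine Or.inr ⟨by omega, ?_⟩
      rintro ⟨l, h2, h3⟩
      omega
  · intro h
    change min K s = u.val
    rcases h with ⟨h1, h2⟩ | ⟨h1, h2⟩
    · omega
    · have h3 : ¬ s < K := fun h4 => h2 ⟨s, h4, rfl⟩
      omega

theorem pf_fs : T_FS := by
  intro L
  refine ⟨fd_sum L, fd_sum_succ L, fun K u => ?_⟩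
  refine (((FD.const (u.val < K)).and (fd_sum_num L u.val)).or ((FD.const (u.val = K)).and
    (FD.exFin K (fun l => fd_sum_num L l)).not)).congr fun N E v _ => ?_
  exact (capn_eq_iff K _ u).symm

end Pool.Agent.H58.TW
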