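import Pool.Agent.H16.TO.Targets

/-!
# Module FT: one step is first-order
-/

set_option autoImplicit false

namespace Pool.Agent.H58.TW

open Pool.Agent.H69.Sp Pool.Agent.H69.Mt Pool.Agent.H16.TO

theorem fsum_eq {α : Type} (s : Finset α) (im : α → ℕ) (v : ℕ → ℕ) :
    ((s.toList.map im).map v).sum = ∑ a ∈ s, v (im a) := by
  rw [List.map_map]
  exact Finset.sum_map_toList s (v ∘ im)

theorem fdS (hFS : T_FS) {α : Type} (s : Finset α) (im : α → ℕ) (x : ℕ) :
    FD (fun _ _ v => ∑ a ∈ s, v (im a) = v x) :=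
  ((hFS (s.toList.map im)).1 x).congr fun N E v _ => by rw [fsum_eq]

theorem fdS1 (hFS : T_FS) {α : Type} (s : Finset α) (im : α → ℕ) (x : ℕ) :
    FD (fun _ _ v => ∑ a ∈ s, v (im a) + 1 = v x) :=
  ((hFS (s.toList.map im)).2.1 x).congr fun N E v _ => by rw [fsum_eq]

theorem fdSc (hFS : T_FS) {α : Type} (s : Finset α) (im : α → ℕ) (K : ℕ) (u : Fin (K + 1)) :
    FD (fun _ _ v => capn K (∑ a ∈ s, v (im a)) = u) :=
  ((hFS (s.toList.map im)).2.2 K u).congr fun N E v _ => by rw [fsum_eq]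

section
variable {Λ Θ : Type} [Fintype Λ] [Fintype Θ] [DecidableEq Λ] [DecidableEq Θ]

theorem fd_l (hFI : T_FI) (hFS : T_FS) (K : ℕ) (im : St Λ Θ K × Θ → ℕ)
    (l : Λ × Θ → Fin (K + 1)) :
    FD (fun _ _ v => ∀ p : Λ × Θ, capn K (∑ σ : St Λ Θ K with σ.1 = p.1, v (im (σ, p.2))) = l p) :=
  (hFI (Λ × Θ) (fun p _ _ v => capn K (∑ σ : St Λ Θ K with σ.1 = p.1, v (im (σ, p.2))) = l p)
    (fun p => fdSc hFS (Finset.univ.filter fun σ : St Λ Θ K => σ.1 = p.1)
      (fun σ => im (σ, p.2)) K (l p))).1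

theorem newSt_iff {K : ℕ} (b : Λ) (m : St Λ Θ K × Θ → ℕ) (Q : St Λ Θ K → Prop) :
    Q (newSt b m) ↔ ∃ l : Λ × Θ → Fin (K + 1),
      (∀ p : Λ × Θ, capn K (∑ σ : St Λ Θ K with σ.1 = p.1, m (σ, p.2)) = l p) ∧
        Q (b, l, fun _ => capn K 0) := by
  constructor
  · intro h
    exact ⟨(newSt b m).2.1, fun _ => rfl, h⟩
  · rintro ⟨l, h1, h2⟩
    have h3 : newSt b m = (b, l, fun _ => capn K 0) := by
      unfold newSt
      exact Prod.ext rfl (Prod.ext (funext h1) rfl)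
    rw [h3]
    exact h2

theorem pf_ft (hFI : T_FI) (hFS : T_FS) : T_FT := by
  intro Λ Θ _ _ _ _ K b ic ic' im Q
  have hA : FD (fun _ _ v => ∀ σ : St Λ Θ K, ∑ θ, v (im (σ, θ)) = v (ic σ)) :=
    (hFI (St Λ Θ K) (fun σ _ _ v => ∑ θ, v (im (σ, θ)) = v (ic σ))
      (fun σ => fdS hFS Finset.univ (fun θ => im (σ, θ)) (ic σ))).1
  constructor
  · have hB : ∀ l : Λ × Θ → Fin (K + 1), FD (fun _ _ v =>
        (∀ p : Λ × Θ, capn K (∑ σ : St Λ Θ K with σ.1 = p.1, v (im (σ, p.2))) = l p) ∧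
        ∀ σ' : St Λ Θ K, v (ic' σ') = (∑ p : St Λ Θ K × Θ with upd p.1 b p.2 = σ', v (im p)) +
          if σ' = (b, l, fun _ => capn K 0) then 1 else 0) := by
      intro l
      refine (fd_l hFI hFS K im l).and ?_
      refine (hFI (St Λ Θ K) (fun σ' _ _ v => v (ic' σ') =
        (∑ p : St Λ Θ K × Θ with upd p.1 b p.2 = σ', v (im p)) +
          if σ' = (b, l, fun _ => capn K 0) then 1 else 0) (fun σ' => ?_)).1
      by_cases h : σ' = (b, l, fun _ => capn K 0)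
      · refine (fdS1 hFS (Finset.univ.filter fun p : St Λ Θ K × Θ => upd p.1 b p.2 = σ')
          im (ic' σ')).congr fun N E v _ => ?_
        rw [if_pos h]
        exact eq_comm
      · refine (fdS hFS (Finset.univ.filter fun p : St Λ Θ K × Θ => upd p.1 b p.2 = σ')
          im (ic' σ')).congr fun N E v _ => ?_
        rw [if_neg h, add_zero]
        exact eq_comm
    refine (hA.and (hFI _ _ hB).2).congr fun N E v _ => ?_
    refine and_congr_right fun _ => ?_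
    exact (newSt_iff b (fun p => v (im p)) (fun s => ∀ σ' : St Λ Θ K, v (ic' σ') =
      (∑ p : St Λ Θ K × Θ with upd p.1 b p.2 = σ', v (im p)) + if σ' = s then 1 else 0)).symm
  · have hC : FD (fun _ _ v => ∀ p : St Λ Θ K × Θ, v (im p) ≠ 0 → Q (upd p.1 b p.2)) :=
      (hFI (St Λ Θ K × Θ) (fun p _ _ v => v (im p) ≠ 0 → Q (upd p.1 b p.2))
        (fun p => ((FD.num 0 (im p)).not.imp (FD.const _)))).1
    have hD : ∀ l : Λ × Θ → Fin (K + 1), FD (fun _ _ v =>
        (∀ p : Λ × Θ, capn K (∑ σ : St Λ Θ K with σ.1 = p.1, v (im (σ, p.2))) = l p) ∧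
          Q (b, l, fun _ => capn K 0)) := fun l => (fd_l hFI hFS K im l).and (FD.const _)
    refine (hA.and (hC.and (hFI _ _ hD).2)).congr fun N E v _ => ?_
    refine and_congr_right fun _ => and_congr_right fun _ => ?_
    exact (newSt_iff b (fun p => v (im p)) Q).symm

end

end Pool.Agent.H58.TW
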